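import Pool.Agent.Helper80K9.BS.Semi

/-!
# The resolvent lower bound
-/

set_option autoImplicit false

open MeasureTheory Filter Set Topology
open scoped ENNReal InnerProductSpace

namespace Pool.Agent.Helper80K9.BS

/-- the multiplier of the correction -/
noncomputable def phi (α s : ℝ) : ℝ := if s ≤ 0 then -α else 1 / (1 + s) - α

/-- the dissipation -/
noncomputable def gg (α s : ℝ) : ℝ := if s ≤ 0 then 0 else 2 * (1 / (1 + s)) ^ 2 - α * (1 / (1 + s))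

theorem phi_meas (α : ℝ) : Measurable (phi α) := by
  unfold phi
  refine Measurable.ite measurableSet_Iic measurable_const ?_
  fun_prop

theorem gg_meas (α : ℝ) : Measurable (gg α) := by
  unfold gg
  refine Measurable.ite measurableSet_Iic measurable_const ?_
  fun_prop

theorem u_bd {s : ℝ} (hs : ¬ s ≤ 0) : 0 < 1 / (1 + s) ∧ 1 / (1 + s) ≤ 1 := by
  have h : 0 < s := not_le.1 hs
  refine ⟨by positivity, ?_⟩
  rw [div_le_one (by linarith)]
  linarith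

theorem phi_bd {α : ℝ} (hα : 0 < α) (s : ℝ) : |phi α s| ≤ 1 + α := by
  unfold phi
  split_ifs with h
  · rw [abs_neg, abs_of_pos hα]
    linarith
  · obtain ⟨h1, h2⟩ := u_bd h
    rw [abs_le]
    constructor <;> linarith

theorem gg_bd {α : ℝ} (hα : 0 < α) (s : ℝ) : |gg α s| ≤ 2 + α := by
  unfold gg
  split_ifs with h
  · rw [abs_zero]
    linarith
  · obtain ⟨h1, h2⟩ := u_bd h
    rw [abs_le]
    constructor
    · nlinarith
    · nlinarith

/-- the operator of multiplication by `phi` -/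
noncomputable def Ph (α : ℝ) (hα : 0 < α) : L →L[ℂ] L :=
  (exists_mulOp (phi α) (phi_meas α) (phi_bd hα)).choose

theorem Ph_isMul {α : ℝ} (hα : 0 < α) : IsMul (phi α) (Ph α hα) :=
  ⟨phi_meas α, ⟨_, phi_bd hα⟩, (exists_mulOp (phi α) (phi_meas α) (phi_bd hα)).choose_spec⟩

theorem pointwise {α h : ℝ} (hα : 0 < α) (hh : 0 < h) (s : ℝ) :
    phi α s * pf s + phi α (s + h) * mf h (s + h) ^ 2 - phi α s ≤
      h * (3 * h - gg α s) := by
  rw [mf_shift hh.le]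
  by_cases hs : s ≤ 0
  · unfold pf gg
    rw [if_pos hs, if_pos hs, if_neg (not_lt.2 hs)]
    nlinarith [mul_pos hh hh]
  · have hs' : 0 < s := not_le.1 hs
    unfold phi pf gg
    rw [if_neg hs, if_neg hs, if_neg hs, if_pos hs', if_neg (by linarith)]
    obtain ⟨v, hv⟩ : ∃ v, v = 1 + s := ⟨_, rfl⟩
    have hv1 : 1 ≤ v := by linarith
    have hv0 : 0 < v := by linarith
    have e1 : 1 + (s + h) = v + h := by rw [hv]; ring
    have e2 : 1 + s + h = v + h := by rw [hv]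
    rw [e1, e2, ← hv]
    have hvh : 0 < v + h := by linarith
    have key1 : v / (v + h) ^ 2 ≤ 1 / v - 2 * h / v ^ 2 + 3 * h ^ 2 / v ^ 3 := by
      rw [div_le_iff₀ (by positivity)]
      have : (1 / v - 2 * h / v ^ 2 + 3 * h ^ 2 / v ^ 3) * (v + h) ^ 2 =
          v + (4 * h ^ 3 * v + 3 * h ^ 4) / v ^ 3 := by
        field_simp
        ring
      rw [this]
      have : 0 ≤ (4 * h ^ 3 * v + 3 * h ^ 4) / v ^ 3 := by positivity
      linarith
    have key2 : h / (v + h) ≤ h / v := div_le_div_of_nonneg_left hh.le hv0 (by linarith)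
    have key3 : 3 * h ^ 2 / v ^ 3 ≤ 3 * h ^ 2 :=
      div_le_self (by positivity) (one_le_pow₀ hv1)
    have e3 : (1 / v - α) * 0 + (1 / (v + h) - α) * (v / (v + h)) - (1 / v - α) =
        v / (v + h) ^ 2 - 1 / v + α * (h / (v + h)) := by
      field_simp
      ring
    rw [e3]
    have e4 : h * (3 * h - (2 * (1 / v) ^ 2 - α * (1 / v))) =
        3 * h ^ 2 - 2 * h / v ^ 2 + α * (h / v) := by
      field_simp
      ring
    rw [e4]
    have := mul_le_mul_of_nonneg_left key2 hα.le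
    linarith

theorem quad_T {α h : ℝ} (hα : 0 < α) (hh : 0 < h) (x : L) :
    (∫ s, phi α s * ‖T h x s‖ ^ 2) - ∫ s, phi α s * ‖x s‖ ^ 2 ≤
      h * (3 * h * ‖x‖ ^ 2 - ∫ s, gg α s * ‖x s‖ ^ 2) := by
  rw [integral_T hh.le x (phi_meas α) (phi_bd hα)]
  have hm : Measurable fun s => phi α s * pf s + phi α (s + h) * mf h (s + h) ^ 2 :=
    ((phi_meas α).mul pf_meas).add (((phi_meas α).comp (measurable_id.add_const h)).mul
      (((mf_meas h).comp (measurable_id.add_const h)).pow_const 2))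
  have hb : ∀ s, |phi α s * pf s + phi α (s + h) * mf h (s + h) ^ 2| ≤ 2 * (1 + α) := fun s => by
    have b1 : |phi α s * pf s| ≤ 1 + α := by
      rw [abs_mul]
      calc |phi α s| * |pf s| ≤ (1 + α) * 1 :=
            mul_le_mul (phi_bd hα s) (pf_bd s) (abs_nonneg _) (by linarith)
        _ = 1 + α := mul_one _
    have b2 : |phi α (s + h) * mf h (s + h) ^ 2| ≤ 1 + α := by
      rw [abs_mul, abs_pow]
      have h2 : |mf h (s + h)| ^ 2 ≤ 1 := pow_le_one₀ (abs_nonneg _) (mf_bd hh.le _)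
      calc |phi α (s + h)| * |mf h (s + h)| ^ 2 ≤ (1 + α) * 1 :=
            mul_le_mul (phi_bd hα _) h2 (by positivity) (by linarith)
        _ = 1 + α := mul_one _
    exact (abs_add_le _ _).trans (by linarith)
  have i1 := integrable_mul_sq x hm hb
  have i2 := integrable_mul_sq x (phi_meas α) (phi_bd hα)
  have i3 := integrable_mul_sq x (gg_meas α) (gg_bd hα)
  have i4 := integrable_sq x
  rw [← integral_sub i1 i2, norm_sq_eq x, ← integral_const_mul, ← integral_sub (i4.const_mul _) i3,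
    ← integral_const_mul]
  refine integral_mono (i1.sub i2) (((i4.const_mul _).sub i3).const_mul _) fun s => ?_
  simp only
  have h1 := pointwise hα hh s
  have h2 : 0 ≤ ‖x s‖ ^ 2 := by positivity
  have h3 := mul_le_mul_of_nonneg_right h1 h2
  have e : h * (3 * h * ‖x s‖ ^ 2 - gg α s * ‖x s‖ ^ 2) = h * (3 * h - gg α s) * ‖x s‖ ^ 2 := by
    ring
  rw [e]
  have e' : (phi α s * pf s + phi α (s + h) * mf h (s + h) ^ 2) * ‖x s‖ ^ 2 -
      phi α s * ‖x s‖ ^ 2 =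
      (phi α s * pf s + phi α (s + h) * mf h (s + h) ^ 2 - phi α s) * ‖x s‖ ^ 2 := by
    ring
  rw [e']
  exact h3

theorem deriv_bound {α : ℝ} (hα : 0 < α) {x y : L}
    (hy : Tendsto (fun h : ℝ => ((h : ℂ)⁻¹) • (T h x - x)) (𝓝[>] 0) (𝓝 y)) :
    2 * (⟪y, Ph α hα x⟫_ℂ).re ≤ - ∫ s, gg α s * ‖x s‖ ^ 2 := by
  have hI := Ph_isMul hα
  have hTx := T_tendsto x
  have hc1 : Tendsto (fun h : ℝ => (⟪((h : ℂ)⁻¹) • (T h x - x), Ph α hα (T h x)⟫_ℂ).re +
      (⟪x, Ph α hα (((h : ℂ)⁻¹) • (T h x - x))⟫_ℂ).re) (𝓝[>] 0)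
      (𝓝 ((⟪y, Ph α hα x⟫_ℂ).re + (⟪x, Ph α hα y⟫_ℂ).re)) := by
    have a1 : Tendsto (fun h : ℝ => Ph α hα (T h x)) (𝓝[>] 0) (𝓝 (Ph α hα x)) :=
      ((Ph α hα).continuous.tendsto x).comp hTx
    have a2 : Tendsto (fun h : ℝ => Ph α hα (((h : ℂ)⁻¹) • (T h x - x))) (𝓝[>] 0)
        (𝓝 (Ph α hα y)) := ((Ph α hα).continuous.tendsto y).comp hy
    have a3 := (Complex.continuous_re.tendsto _).comp (hy.inner (𝕜 := ℂ) a1)
    have a4 := (Complex.continuous_re.tendsto _).comp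
      ((tendsto_const_nhds (x := x)).inner (𝕜 := ℂ) a2)
    exact a3.add a4
  have hsym : (⟪x, Ph α hα y⟫_ℂ).re = (⟪y, Ph α hα x⟫_ℂ).re := by
    rw [hI.symm, ← inner_conj_symm, Complex.conj_re]
  rw [hsym, ← two_mul] at hc1
  have hc2 : Tendsto (fun h : ℝ => 3 * h * ‖x‖ ^ 2 - ∫ s, gg α s * ‖x s‖ ^ 2) (𝓝[>] 0)
      (𝓝 (- ∫ s, gg α s * ‖x s‖ ^ 2)) := by
    have a1 : Continuous fun h : ℝ => 3 * h * ‖x‖ ^ 2 - ∫ s, gg α s * ‖x s‖ ^ 2 := by fun_prop
    have a2 := a1.tendsto 0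
    simp only [mul_zero, zero_mul, zero_sub] at a2
    exact a2.mono_left nhdsWithin_le_nhds
  refine le_of_tendsto_of_tendsto hc1 hc2 ?_
  filter_upwards [self_mem_nhdsWithin] with h hh
  have hh' : (0 : ℝ) < h := hh
  have q := quad_T hα hh' x
  have e1 := hI.inner_self (T h x)
  have e2 := hI.inner_self x
  have e3 : (∫ s, phi α s * ‖T h x s‖ ^ 2) - ∫ s, phi α s * ‖x s‖ ^ 2 =
      (⟪T h x - x, Ph α hα (T h x)⟫_ℂ).re + (⟪x, Ph α hα (T h x - x)⟫_ℂ).re := by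
    rw [inner_sub_left, map_sub, inner_sub_right, e1, e2]
    simp only [Complex.sub_re, Complex.ofReal_re]
    ring
  rw [e3] at q
  have e4 : (⟪((h : ℂ)⁻¹) • (T h x - x), Ph α hα (T h x)⟫_ℂ).re =
      h⁻¹ * (⟪T h x - x, Ph α hα (T h x)⟫_ℂ).re := by
    rw [inner_smul_left, ← Complex.ofReal_inv, Complex.conj_ofReal, Complex.re_ofReal_mul]
  have e5 : (⟪x, Ph α hα (((h : ℂ)⁻¹) • (T h x - x))⟫_ℂ).re =
      h⁻¹ * (⟪x, Ph α hα (T h x - x)⟫_ℂ).re := by
    rw [map_smul, inner_smul_right, ← Complex.ofReal_inv, Complex.re_ofReal_mul]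
  rw [e4, e5, ← mul_add, inv_mul_le_iff₀ hh']
  exact q

theorem lower_bound {x y : L}
    (hy : Tendsto (fun h : ℝ => ((h : ℂ)⁻¹) • (T h x - x)) (𝓝[>] 0) (𝓝 y))
    {μ : ℂ} (hμ : μ.re < 0) : 1 / 2 * |μ.re| * ‖x‖ ≤ ‖μ • x - y‖ := by
  obtain ⟨α, hα'⟩ : ∃ α, α = -μ.re := ⟨_, rfl⟩
  have hα : 0 < α := by linarith
  have habs : |μ.re| = α := by
    rw [abs_of_neg hμ, hα']
  have hI := Ph_isMul hα
  have hd := deriv_bound hα hy
  obtain ⟨w, hw⟩ : ∃ w : L, w = y - μ • x := ⟨_, rfl⟩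
  have hw1 : ‖μ • x - y‖ = ‖w‖ := by rw [hw, norm_sub_rev]
  have h0 : 0 ≤ ‖w + Ph α hα x‖ ^ 2 := by positivity
  have h1 : ‖w + Ph α hα x‖ ^ 2 = ‖w‖ ^ 2 + 2 * (⟪w, Ph α hα x⟫_ℂ).re + ‖Ph α hα x‖ ^ 2 := by
    have := norm_add_sq (𝕜 := ℂ) w (Ph α hα x)
    simpa using this
  have h2 : (⟪w, Ph α hα x⟫_ℂ).re = (⟪y, Ph α hα x⟫_ℂ).re + α * ∫ s, phi α s * ‖x s‖ ^ 2 := by
    rw [hw, inner_sub_left, inner_smul_left, hI.inner_self x, Complex.sub_re, Complex.mul_re]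
    simp only [Complex.conj_re, Complex.ofReal_re, Complex.ofReal_im, mul_zero, sub_zero]
    have e : μ.re = -α := by linarith
    rw [e]
    ring
  have h3 := hI.norm_sq x
  have i1 := integrable_mul_sq x (phi_meas α) (phi_bd hα)
  have i2 := integrable_mul_sq x (gg_meas α) (gg_bd hα)
  have i3 : Integrable (fun s => phi α s ^ 2 * ‖x s‖ ^ 2) := by
    refine integrable_mul_sq x ((phi_meas α).pow_const 2) (C := (1 + α) ^ 2) fun s => ?_
    rw [abs_pow]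
    exact pow_le_pow_left₀ (abs_nonneg _) (phi_bd hα s) 2
  have i4 := integrable_sq x
  have h4 : 3 / 4 * α ^ 2 * ‖x‖ ^ 2 ≤ (∫ s, gg α s * ‖x s‖ ^ 2) -
      2 * α * (∫ s, phi α s * ‖x s‖ ^ 2) - ∫ s, phi α s ^ 2 * ‖x s‖ ^ 2 := by
    have j1 : Integrable (fun s => gg α s * ‖x s‖ ^ 2 - 2 * α * (phi α s * ‖x s‖ ^ 2)) :=
      i2.sub (i1.const_mul _)
    rw [norm_sq_eq x, ← integral_const_mul, ← integral_const_mul, ← integral_sub i2
      (i1.const_mul _), ← integral_sub j1 i3]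
    refine integral_mono (i4.const_mul _) (j1.sub i3) fun s => ?_
    simp only
    have e : gg α s * ‖x s‖ ^ 2 - 2 * α * (phi α s * ‖x s‖ ^ 2) - phi α s ^ 2 * ‖x s‖ ^ 2 =
        (gg α s - 2 * α * phi α s - phi α s ^ 2) * ‖x s‖ ^ 2 := by ring
    rw [e]
    refine mul_le_mul_of_nonneg_right ?_ (by positivity)
    unfold gg phi
    split_ifs with hs
    · nlinarith
    · nlinarith [sq_nonneg ((1 / (1 + s)) - α / 2)]
  have h5 : 3 / 4 * α ^ 2 * ‖x‖ ^ 2 ≤ ‖w‖ ^ 2 := by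
    rw [h1, h2, h3] at h0
    nlinarith
  rw [hw1, habs]
  refine le_of_sq_le_sq ?_ (norm_nonneg _)
  have h6 : 0 ≤ α ^ 2 * ‖x‖ ^ 2 := by positivity
  nlinarith

/-- the test vector -/
noncomputable def x0 : L :=
  indicatorConstLp 2 (measurableSet_Ioo (a := (0 : ℝ)) (b := 1)) (by simp) (1 : ℂ)

theorem norm_x0 : ‖x0‖ = 1 := by
  unfold x0
  rw [norm_indicatorConstLp (by norm_num) (by norm_num)]
  simp

theorem norm_T_x0 {t : ℝ} (ht : 0 ≤ t) : ‖T t x0‖ ^ 2 ≤ 2 / (1 + t) := by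
  rw [norm_T_sq ht]
  have h1 : ∀ᵐ s, (pf s + mf t (s + t) ^ 2) * ‖x0 s‖ ^ 2 ≤ 2 / (1 + t) * ‖x0 s‖ ^ 2 := by
    have h2 : x0 =ᵐ[volume] (Ioo (0 : ℝ) 1).indicator fun _ => (1 : ℂ) :=
      indicatorConstLp_coeFn
    filter_upwards [h2] with s hs
    by_cases h3 : s ∈ Ioo (0 : ℝ) 1
    · refine mul_le_mul_of_nonneg_right ?_ (by positivity)
      rw [mf_shift ht, if_pos h3.1]
      unfold pf
      rw [if_neg (not_le.2 h3.1), zero_add]
      have a1 := h3.1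
      have a2 := h3.2
      rw [div_le_div_iff₀ (by linarith) (by linarith)]
      nlinarith
    · rw [hs, indicator_of_notMem h3]
      simp
  have hm : Measurable fun s => pf s + mf t (s + t) ^ 2 :=
    pf_meas.add (((mf_meas t).comp (measurable_id.add_const t)).pow_const 2)
  have hb : ∀ s, |pf s + mf t (s + t) ^ 2| ≤ 2 := fun s => by
    have a1 := pf_bd s
    have a2 : |mf t (s + t) ^ 2| ≤ 1 := by
      rw [abs_pow]
      exact pow_le_one₀ (abs_nonneg _) (mf_bd ht _)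
    exact (abs_add_le _ _).trans (by linarith)
  have h4 := integral_mono_ae (integrable_mul_sq x0 hm hb) ((integrable_sq x0).const_mul _) h1
  rw [integral_const_mul, ← norm_sq_eq, norm_x0] at h4
  simpa using h4

theorem no_lower : ¬ ∃ m₁ : ℝ, 0 < m₁ ∧ ∀ t : ℝ, 0 ≤ t → ∀ x : L, m₁ * ‖x‖ ≤ ‖T t x‖ := by
  rintro ⟨m, hm, h⟩
  have ht : 0 ≤ 2 / m ^ 2 := by positivity
  have h1 := h _ ht x0
  rw [norm_x0, mul_one] at h1
  have h2 := norm_T_x0 ht
  have h3 : m ^ 2 ≤ 2 / (1 + 2 / m ^ 2) := (pow_le_pow_left₀ hm.le h1 2).trans h2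
  rw [le_div_iff₀ (by positivity)] at h3
  have h4 : m ^ 2 * (1 + 2 / m ^ 2) = m ^ 2 + 2 := by
    field_simp
  rw [h4] at h3
  nlinarith [pow_pos hm 2]

end Pool.Agent.Helper80K9.BS
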