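import Mathlib

/-!
# A weighted shift semigroup on `L²(ℝ)`
-/

set_option autoImplicit false

open MeasureTheory Filter Set Topology
open scoped ENNReal InnerProductSpace

namespace Pool.Agent.Helper80K9.BS

/-- the Hilbert space -/
noncomputable abbrev L := Lp ℂ 2 (volume : Measure ℝ)

theorem exists_mulOp (g : ℝ → ℝ) (hg : Measurable g) {C : ℝ} (hC : ∀ s, |g s| ≤ C) :
    ∃ A : L →L[ℂ] L, ∀ x : L, A x =ᵐ[volume] fun s => (g s : ℂ) * x s := by
  have hm : MemLp (fun s => (g s : ℂ)) ∞ (volume : Measure ℝ) :=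
    memLp_top_of_bound (Complex.measurable_ofReal.comp hg).aestronglyMeasurable C
      (ae_of_all _ fun s => by simpa using hC s)
  refine ⟨(ContinuousLinearMap.mul ℂ ℂ).holderL volume ∞ 2 2 (hm.toLp _), fun x => ?_⟩
  have h1 := (ContinuousLinearMap.mul ℂ ℂ).coeFn_holder (r := 2) (hm.toLp _) x
  refine (Filter.EventuallyEq.trans ?_ h1).trans ?_
  · rfl
  · filter_upwards [hm.coeFn_toLp] with s hs
    rw [hs]
    rfl

/-- translation -/
noncomputable def tr (t : ℝ) : L →ₗᵢ[ℂ] L :=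
  Lp.compMeasurePreservingₗᵢ ℂ (fun s => s - t) (measurePreserving_sub_right volume t)

theorem tr_ae (t : ℝ) (x : L) : tr t x =ᵐ[volume] fun s => x (s - t) :=
  Lp.coeFn_compMeasurePreserving x (measurePreserving_sub_right volume t)

theorem tr_tendsto (x : L) : Tendsto (fun h : ℝ => tr h x) (𝓝[>] 0) (𝓝 x) := by
  have h0 : tr 0 x = x := by
    apply Lp.ext
    filter_upwards [tr_ae 0 x] with s hs
    rw [hs, sub_zero]
  have h1 : Continuous fun h : ℝ => tr h x := by
    have hc : Continuous fun h : ℝ => (ContinuousMap.mk (fun p : ℝ × ℝ => p.2 - p.1)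
        (by fun_prop)).curry h := ContinuousMap.continuous _
    exact (continuous_const (y := x)).compMeasurePreservingLp hc
      (fun h => measurePreserving_sub_right volume h) (by norm_num)
  have h2 := (h1.tendsto 0).mono_left (nhdsWithin_le_nhds (s := Ioi 0))
  rwa [h0] at h2

/-- the indicator of the negative half line -/
noncomputable def pf (s : ℝ) : ℝ := if s ≤ 0 then 1 else 0

/-- the multiplier of the shift -/
noncomputable def mf (t s : ℝ) : ℝ := if t < s then √((1 + s - t) / (1 + s)) else 0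

theorem pf_meas : Measurable pf := by
  unfold pf
  exact Measurable.ite measurableSet_Iic measurable_const measurable_const

theorem pf_bd (s : ℝ) : |pf s| ≤ 1 := by
  unfold pf
  split_ifs <;> simp

theorem mf_meas (t : ℝ) : Measurable (mf t) := by
  unfold mf
  refine Measurable.ite measurableSet_Ioi ?_ measurable_const
  fun_prop

theorem mf_nonneg (t s : ℝ) : 0 ≤ mf t s := by
  unfold mf
  split_ifs
  · exact Real.sqrt_nonneg _
  · exact le_rfl

theorem mf_sq {t s : ℝ} (ht : 0 ≤ t) (hs : t < s) : mf t s ^ 2 = (1 + s - t) / (1 + s) := by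
  unfold mf
  rw [if_pos hs, Real.sq_sqrt]
  exact div_nonneg (by linarith) (by linarith)

theorem mf_le {t : ℝ} (ht : 0 ≤ t) (s : ℝ) : mf t s ≤ 1 := by
  unfold mf
  split_ifs with h
  · rw [Real.sqrt_le_one]
    rw [div_le_one (by linarith)]
    linarith
  · exact zero_le_one

theorem mf_bd {t : ℝ} (ht : 0 ≤ t) (s : ℝ) : |mf t s| ≤ 1 := by
  rw [abs_of_nonneg (mf_nonneg t s)]
  exact mf_le ht s

/-- multiplication by `pf` -/
noncomputable def P : L →L[ℂ] L := (exists_mulOp pf pf_meas pf_bd).choose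

theorem P_ae (x : L) : P x =ᵐ[volume] fun s => (pf s : ℂ) * x s :=
  (exists_mulOp pf pf_meas pf_bd).choose_spec x

/-- multiplication by `mf t` -/
noncomputable def Mo (t : ℝ) (ht : 0 ≤ t) : L →L[ℂ] L :=
  (exists_mulOp (mf t) (mf_meas t) (mf_bd ht)).choose

theorem Mo_ae {t : ℝ} (ht : 0 ≤ t) (x : L) : Mo t ht x =ᵐ[volume] fun s => (mf t s : ℂ) * x s :=
  (exists_mulOp (mf t) (mf_meas t) (mf_bd ht)).choose_spec x

/-- the semigroup -/
noncomputable def T (t : ℝ) : L →L[ℂ] L :=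
  P + (Mo (max t 0) (le_max_right _ _)).comp (tr (max t 0)).toContinuousLinearMap

theorem T_ae {t : ℝ} (ht : 0 ≤ t) (x : L) :
    T t x =ᵐ[volume] fun s => (pf s : ℂ) * x s + (mf t s : ℂ) * x (s - t) := by
  have hmax : max t 0 = t := max_eq_left ht
  have h1 : T t x = P x + Mo (max t 0) (le_max_right _ _) (tr (max t 0) x) := rfl
  rw [h1]
  filter_upwards [Lp.coeFn_add (P x) (Mo (max t 0) (le_max_right _ _) (tr (max t 0) x)), P_ae x,
    Mo_ae (le_max_right t 0) (tr (max t 0) x), tr_ae (max t 0) x] with s h1 h2 h3 h4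
  rw [h1, Pi.add_apply, h2, h3, h4, hmax]

/-! ### quadratic forms -/

theorem integrable_sq (x : L) : Integrable (fun s => ‖x s‖ ^ 2) :=
  (Lp.memLp x).integrable_norm_pow two_ne_zero

theorem integrable_mul_sq (x : L) {g : ℝ → ℝ} (hg : Measurable g) {C : ℝ} (hC : ∀ s, |g s| ≤ C) :
    Integrable (fun s => g s * ‖x s‖ ^ 2) :=
  (integrable_sq x).bdd_mul hg.aestronglyMeasurable (ae_of_all _ fun s => by
    rw [Real.norm_eq_abs]
    exact hC s)

theorem norm_sq_eq (x : L) : ‖x‖ ^ 2 = ∫ s, ‖x s‖ ^ 2 := by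
  have h1 : ((‖x‖ ^ 2 : ℝ) : ℂ) = ∫ s, ((‖x s‖ ^ 2 : ℝ) : ℂ) := by
    have h2 := inner_self_eq_norm_sq_to_K (𝕜 := ℂ) x
    rw [L2.inner_def] at h2
    have h3 : ((‖x‖ ^ 2 : ℝ) : ℂ) = (RCLike.ofReal ‖x‖ : ℂ) ^ 2 := by
      push_cast
      rfl
    rw [h3, ← h2]
    refine integral_congr_ae (ae_of_all _ fun s => ?_)
    simp only
    rw [inner_self_eq_norm_sq_to_K]
    push_cast
    rfl
  rw [integral_complex_ofReal] at h1
  exact_mod_cast h1

/-- symmetric multiplication operators -/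
structure IsMul (g : ℝ → ℝ) (A : L →L[ℂ] L) : Prop where
  meas : Measurable g
  bd : ∃ C, ∀ s, |g s| ≤ C
  ae : ∀ x : L, A x =ᵐ[volume] fun s => (g s : ℂ) * x s

theorem IsMul.symm {g : ℝ → ℝ} {A : L →L[ℂ] L} (h : IsMul g A) (x y : L) :
    ⟪x, A y⟫_ℂ = ⟪A x, y⟫_ℂ := by
  rw [L2.inner_def, L2.inner_def]
  refine integral_congr_ae ?_
  filter_upwards [h.ae x, h.ae y] with s h1 h2
  rw [h1, h2]
  simp only [RCLike.inner_apply, map_mul, Complex.conj_ofReal]
  ring

theorem IsMul.inner_self {g : ℝ → ℝ} {A : L →L[ℂ] L} (h : IsMul g A) (x : L) :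
    ⟪x, A x⟫_ℂ = ((∫ s, g s * ‖x s‖ ^ 2 : ℝ) : ℂ) := by
  rw [L2.inner_def, ← integral_complex_ofReal]
  refine integral_congr_ae ?_
  filter_upwards [h.ae x] with s h1
  rw [h1]
  simp only [RCLike.inner_apply]
  have h2 : x s * (starRingEnd ℂ) (x s) = ((‖x s‖ ^ 2 : ℝ) : ℂ) := by
    rw [Complex.mul_conj, Complex.normSq_eq_norm_sq]
  push_cast at h2 ⊢
  rw [mul_assoc, h2]

theorem IsMul.norm_sq {g : ℝ → ℝ} {A : L →L[ℂ] L} (h : IsMul g A) (x : L) :
    ‖A x‖ ^ 2 = ∫ s, g s ^ 2 * ‖x s‖ ^ 2 := by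
  rw [norm_sq_eq]
  refine integral_congr_ae ?_
  filter_upwards [h.ae x] with s h1
  rw [h1, norm_mul, mul_pow, Complex.norm_real, Real.norm_eq_abs, sq_abs]

theorem integral_T {t : ℝ} (ht : 0 ≤ t) (x : L) {g : ℝ → ℝ} (hg : Measurable g) {C : ℝ}
    (hC : ∀ s, |g s| ≤ C) : ∫ s, g s * ‖T t x s‖ ^ 2 =
      ∫ s, (g s * pf s + g (s + t) * mf t (s + t) ^ 2) * ‖x s‖ ^ 2 := by
  have hC0 : 0 ≤ C := (abs_nonneg _).trans (hC 0)
  have h1 : ∀ᵐ s, g s * ‖T t x s‖ ^ 2 =
      (g s * pf s) * ‖x s‖ ^ 2 + (g s * mf t s ^ 2) * ‖x (s - t)‖ ^ 2 := by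
    filter_upwards [T_ae ht x] with s hs
    rw [hs]
    unfold pf
    split_ifs with h2
    · have h3 : mf t s = 0 := by
        unfold mf
        rw [if_neg (by linarith)]
      rw [h3]
      simp
    · rw [Complex.ofReal_zero, zero_mul, zero_add, norm_mul, mul_pow, Complex.norm_real,
        Real.norm_eq_abs, sq_abs]
      ring
  rw [integral_congr_ae h1]
  have hm1 : Measurable fun s => g s * pf s := hg.mul pf_meas
  have hb1 : ∀ s, |g s * pf s| ≤ C := fun s => by
    rw [abs_mul]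
    calc |g s| * |pf s| ≤ C * 1 := mul_le_mul (hC s) (pf_bd s) (abs_nonneg _) hC0
      _ = C := mul_one C
  have hm2 : Measurable fun s => g (s + t) * mf t (s + t) ^ 2 :=
    (hg.comp (measurable_id.add_const t)).mul
      (((mf_meas t).comp (measurable_id.add_const t)).pow_const 2)
  have hb2 : ∀ s, |g (s + t) * mf t (s + t) ^ 2| ≤ C := fun s => by
    rw [abs_mul, abs_pow]
    have h2 : |mf t (s + t)| ^ 2 ≤ 1 := pow_le_one₀ (abs_nonneg _) (mf_bd ht _)
    calc |g (s + t)| * |mf t (s + t)| ^ 2 ≤ C * 1 :=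
          mul_le_mul (hC _) h2 (by positivity) hC0
      _ = C := mul_one C
  have hi1 := integrable_mul_sq x hm1 hb1
  have hi2 := integrable_mul_sq x hm2 hb2
  have h3 : (fun s => (g s * mf t s ^ 2) * ‖x (s - t)‖ ^ 2) =
      fun s => (fun r => (g (r + t) * mf t (r + t) ^ 2) * ‖x r‖ ^ 2) (s - t) := by
    funext s
    simp only [sub_add_cancel]
  have hi3 : Integrable fun s => (g s * mf t s ^ 2) * ‖x (s - t)‖ ^ 2 := by
    rw [h3]
    exact hi2.comp_sub_right t
  rw [integral_add hi1 hi3, h3, integral_sub_right_eq_self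
    (fun r => (g (r + t) * mf t (r + t) ^ 2) * ‖x r‖ ^ 2) t, ← integral_add hi1 hi2]
  refine integral_congr_ae (ae_of_all _ fun s => ?_)
  simp only
  ring

theorem norm_T_sq {t : ℝ} (ht : 0 ≤ t) (x : L) :
    ‖T t x‖ ^ 2 = ∫ s, (pf s + mf t (s + t) ^ 2) * ‖x s‖ ^ 2 := by
  have h := integral_T ht x (g := fun _ => 1) measurable_const (C := 1) (fun s => by simp)
  simp only [one_mul] at h
  rw [norm_sq_eq, h]

theorem mf_shift {t s : ℝ} (ht : 0 ≤ t) :
    mf t (s + t) ^ 2 = if 0 < s then (1 + s) / (1 + s + t) else 0 := by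
  by_cases h : 0 < s
  · rw [if_pos h, mf_sq ht (by linarith)]
    congr 1
    · ring
    · ring
  · rw [if_neg h]
    unfold mf
    rw [if_neg (by linarith)]
    norm_num

theorem norm_T_le {t : ℝ} (ht : 0 ≤ t) (x : L) : ‖T t x‖ ≤ ‖x‖ := by
  refine le_of_sq_le_sq ?_ (norm_nonneg _)
  rw [norm_T_sq ht, norm_sq_eq]
  have hm : Measurable fun s => pf s + mf t (s + t) ^ 2 :=
    pf_meas.add (((mf_meas t).comp (measurable_id.add_const t)).pow_const 2)
  have hle : ∀ s, 0 ≤ pf s + mf t (s + t) ^ 2 ∧ pf s + mf t (s + t) ^ 2 ≤ 1 := by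
    intro s
    rw [mf_shift ht]
    unfold pf
    by_cases h : 0 < s
    · rw [if_pos h, if_neg (by linarith), zero_add]
      constructor
      · positivity
      · rw [div_le_one (by linarith)]
        linarith
    · rw [if_neg h, if_pos (by linarith), add_zero]
      exact ⟨zero_le_one, le_rfl⟩
  refine integral_mono (integrable_mul_sq x hm (C := 1) fun s => ?_) (integrable_sq x) fun s => ?_
  · rw [abs_of_nonneg (hle s).1]
    exact (hle s).2
  · have := (hle s).2
    have h2 : 0 ≤ ‖x s‖ ^ 2 := by positivity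
    simp only
    nlinarith

end Pool.Agent.Helper80K9.BS
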