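import Pool.Agent.Helper80K9.BS.Op

/-!
# The semigroup law and strong continuity
-/

set_option autoImplicit false

open MeasureTheory Filter Set Topology
open scoped ENNReal InnerProductSpace

namespace Pool.Agent.Helper80K9.BS

theorem mf_zero (s : ℝ) : pf s + mf 0 s = 1 := by
  unfold pf mf
  by_cases h : 0 < s
  · rw [if_neg (by linarith), if_pos h, sub_zero, div_self (by linarith), Real.sqrt_one, zero_add]
  · rw [if_pos (by linarith), if_neg h, add_zero]

theorem T_zero : T 0 = ContinuousLinearMap.id ℂ L := by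
  ext1 x
  apply Lp.ext
  filter_upwards [T_ae le_rfl x] with s hs
  rw [hs, sub_zero, ContinuousLinearMap.id_apply, ← add_mul, ← Complex.ofReal_add, mf_zero,
    Complex.ofReal_one, one_mul]

theorem pf_mul_mf {t : ℝ} (ht : 0 ≤ t) (r : ℝ) : pf r * mf t r = 0 := by
  unfold pf mf
  by_cases h : r ≤ 0
  · rw [if_neg (by linarith : ¬ t < r), mul_zero]
  · rw [if_neg h, zero_mul]

theorem mf_mul_pf (s r : ℝ) : mf s r * pf (r - s) = 0 := by
  unfold pf mf
  by_cases h : s < r
  · rw [if_neg (by linarith : ¬ r - s ≤ 0), mul_zero]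
  · rw [if_neg h, zero_mul]

theorem mf_mul_mf {s t : ℝ} (hs : 0 ≤ s) (ht : 0 ≤ t) (r : ℝ) :
    mf s r * mf t (r - s) = mf (s + t) r := by
  unfold mf
  by_cases h : s + t < r
  · rw [if_pos h, if_pos (by linarith), if_pos (by linarith), ← Real.sqrt_mul]
    · congr 1
      have h1 : (1 + r) ≠ 0 := by linarith
      have h2 : (1 + (r - s)) ≠ 0 := by linarith
      have h3 : 1 + r - s ≠ 0 := by linarith
      field_simp
      ring
    · exact div_nonneg (by linarith) (by linarith)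
  · rw [if_neg h]
    by_cases h1 : s < r
    · rw [if_neg (by linarith : ¬ t < r - s), mul_zero]
    · rw [if_neg h1, zero_mul]

theorem T_add {s t : ℝ} (hs : 0 ≤ s) (ht : 0 ≤ t) : T (s + t) = (T s).comp (T t) := by
  ext1 x
  apply Lp.ext
  have hq : ∀ᵐ r, T t x (r - s) = (pf (r - s) : ℂ) * x (r - s) +
      (mf t (r - s) : ℂ) * x (r - s - t) :=
    (measurePreserving_sub_right volume s).quasiMeasurePreserving.ae (T_ae ht x)
  rw [ContinuousLinearMap.comp_apply]
  filter_upwards [T_ae (add_nonneg hs ht) x, T_ae hs (T t x), T_ae ht x, hq] with r h1 h2 h3 h4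
  rw [h1, h2, h3, h4]
  have e1 : (pf r : ℂ) * (mf t r : ℂ) = 0 := by
    rw [← Complex.ofReal_mul, pf_mul_mf ht, Complex.ofReal_zero]
  have e2 : (mf s r : ℂ) * (pf (r - s) : ℂ) = 0 := by
    rw [← Complex.ofReal_mul, mf_mul_pf, Complex.ofReal_zero]
  have e3 : (mf s r : ℂ) * (mf t (r - s) : ℂ) = (mf (s + t) r : ℂ) := by
    rw [← Complex.ofReal_mul, mf_mul_mf hs ht]
  have e4 : (pf r : ℂ) * (pf r : ℂ) = (pf r : ℂ) := by
    rw [← Complex.ofReal_mul]
    congr 1
    unfold pf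
    split_ifs <;> norm_num
  have e5 : r - s - t = r - (s + t) := by ring
  rw [e5]
  linear_combination (-(x r)) * e4 - (x (r - t)) * e1 - (x (r - s)) * e2 - (x (r - (s + t))) * e3

theorem norm_Mo_le {t : ℝ} (ht : 0 ≤ t) (x : L) : ‖Mo t ht x‖ ≤ ‖x‖ := by
  refine le_of_sq_le_sq ?_ (norm_nonneg _)
  have hM : IsMul (mf t) (Mo t ht) := ⟨mf_meas t, ⟨1, mf_bd ht⟩, Mo_ae ht⟩
  rw [hM.norm_sq, norm_sq_eq]
  refine integral_mono (integrable_mul_sq x ((mf_meas t).pow_const 2) (C := 1) fun s => ?_)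
    (integrable_sq x) fun s => ?_
  · rw [abs_pow]
    exact pow_le_one₀ (abs_nonneg _) (mf_bd ht _)
  · have h1 : mf t s ^ 2 ≤ 1 := pow_le_one₀ (mf_nonneg t s) (mf_le ht s)
    have h2 : 0 ≤ ‖x s‖ ^ 2 := by positivity
    simp only
    nlinarith

theorem T_eq {t : ℝ} (ht : 0 ≤ t) (x : L) : T t x = P x + Mo t ht (tr t x) := by
  apply Lp.ext
  filter_upwards [T_ae ht x, Lp.coeFn_add (P x) (Mo t ht (tr t x)), P_ae x,
    Mo_ae ht (tr t x), tr_ae t x] with s h1 h2 h3 h4 h5
  rw [h1, h2, Pi.add_apply, h3, h4, h5]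

theorem mf_tendsto (s : ℝ) : Tendsto (fun h => pf s + mf h s - 1) (𝓝[>] 0) (𝓝 0) := by
  by_cases hs : 0 < s
  · have h1 : Tendsto (fun h : ℝ => √((1 + s - h) / (1 + s)) - 1) (𝓝 0) (𝓝 0) := by
      have h2 : Continuous fun h : ℝ => √((1 + s - h) / (1 + s)) - 1 := by fun_prop
      have h3 := h2.tendsto 0
      simp only [sub_zero] at h3
      rwa [div_self (by linarith), Real.sqrt_one, sub_self] at h3
    refine (h1.mono_left nhdsWithin_le_nhds).congr' ?_
    have h4 : ∀ᶠ h in 𝓝[>] (0 : ℝ), h < s := nhdsWithin_le_nhds (gt_mem_nhds hs)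
    filter_upwards [h4] with h hh
    unfold pf mf
    rw [if_neg (by linarith), if_pos hh, zero_add]
  · refine tendsto_const_nhds.congr' ?_
    filter_upwards [self_mem_nhdsWithin] with h hh
    have hh' : (0 : ℝ) < h := hh
    unfold pf mf
    rw [if_pos (by linarith), if_neg (by linarith)]
    norm_num

theorem Mo_tendsto (x : L) : Tendsto (fun h : ℝ => ∫ s, (pf s + mf h s - 1) ^ 2 * ‖x s‖ ^ 2)
    (𝓝[>] 0) (𝓝 0) := by
  have h0 : ∫ s : ℝ, (0 : ℝ) = 0 := by simp
  suffices key : Tendsto (fun h : ℝ => ∫ s, (pf s + mf h s - 1) ^ 2 * ‖x s‖ ^ 2)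
      (𝓝[>] 0) (𝓝 (∫ s : ℝ, (0 : ℝ))) by
    rwa [h0] at key
  refine tendsto_integral_filter_of_dominated_convergence (fun s => ‖x s‖ ^ 2) ?_ ?_
    (integrable_sq x) ?_
  · filter_upwards with h
    exact (((pf_meas.add (mf_meas h)).sub_const 1).pow_const 2).aestronglyMeasurable.mul
      (integrable_sq x).aestronglyMeasurable
  · filter_upwards [self_mem_nhdsWithin] with h hh
    have hh' : (0 : ℝ) ≤ h := le_of_lt hh
    refine ae_of_all _ fun s => ?_
    have h1 : |pf s + mf h s - 1| ≤ 1 := by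
      rw [abs_le]
      have a1 := mf_nonneg h s
      have a2 := mf_le hh' s
      have a3 : 0 ≤ pf s := by
        unfold pf
        split_ifs <;> norm_num
      constructor
      · linarith
      · unfold pf
        by_cases hs : s ≤ 0
        · rw [if_pos hs]
          have : mf h s = 0 := by
            unfold mf
            rw [if_neg (by linarith)]
          linarith
        · rw [if_neg hs]
          linarith
    rw [Real.norm_eq_abs, abs_mul, abs_pow, abs_of_nonneg (sq_nonneg ‖x s‖)]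
    have h2 : |pf s + mf h s - 1| ^ 2 ≤ 1 := pow_le_one₀ (abs_nonneg _) h1
    have h3 : 0 ≤ ‖x s‖ ^ 2 := by positivity
    nlinarith
  · refine ae_of_all _ fun s => ?_
    have h1 := ((mf_tendsto s).pow 2).mul_const (‖x s‖ ^ 2)
    simpa using h1

theorem T_tendsto (x : L) : Tendsto (fun h : ℝ => T h x) (𝓝[>] 0) (𝓝 x) := by
  rw [tendsto_iff_norm_sub_tendsto_zero]
  have h1 : Tendsto (fun h : ℝ => ‖tr h x - x‖ + √(∫ s, (pf s + mf h s - 1) ^ 2 * ‖x s‖ ^ 2))
      (𝓝[>] 0) (𝓝 0) := by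
    have h2 := tendsto_iff_norm_sub_tendsto_zero.1 (tr_tendsto x)
    have h3 := (Real.continuous_sqrt.tendsto 0).comp (Mo_tendsto x)
    have h4 := h2.add h3
    simpa using h4
  refine squeeze_zero' (Eventually.of_forall fun _ => norm_nonneg _) ?_ h1
  filter_upwards [self_mem_nhdsWithin] with h hh
  have hh' : (0 : ℝ) ≤ h := le_of_lt hh
  have h2 : T h x - x = Mo h hh' (tr h x - x) + (P x + Mo h hh' x - x) := by
    rw [T_eq hh', map_sub]
    abel
  have h3 : ‖P x + Mo h hh' x - x‖ = √(∫ s, (pf s + mf h s - 1) ^ 2 * ‖x s‖ ^ 2) := by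
    have hM : IsMul (fun s => pf s + mf h s - 1)
        (P + Mo h hh' - ContinuousLinearMap.id ℂ L) := by
      refine ⟨(pf_meas.add (mf_meas h)).sub_const 1, ⟨3, fun s => ?_⟩, fun z => ?_⟩
      · have a1 := pf_bd s
        have a2 := mf_bd hh' s
        rw [abs_le] at a1 a2 ⊢
        constructor
        · linarith
        · linarith
      · have e1 : (P + Mo h hh' - ContinuousLinearMap.id ℂ L) z = P z + Mo h hh' z - z := rfl
        rw [e1]
        filter_upwards [Lp.coeFn_sub (P z + Mo h hh' z) z, Lp.coeFn_add (P z) (Mo h hh' z),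
          P_ae z, Mo_ae hh' z] with s b1 b2 b3 b4
        rw [b1, Pi.sub_apply, b2, Pi.add_apply, b3, b4]
        push_cast
        ring
    have h4 := hM.norm_sq x
    have e1 : (P + Mo h hh' - ContinuousLinearMap.id ℂ L) x = P x + Mo h hh' x - x := rfl
    rw [e1] at h4
    rw [← h4, Real.sqrt_sq (norm_nonneg _)]
  rw [h2]
  refine (norm_add_le _ _).trans ?_
  rw [h3]
  exact add_le_add (norm_Mo_le hh' _) le_rfl

theorem T_tendsto' (x : L) : Tendsto (fun h : ℝ => T h x) (𝓝[≥] 0) (𝓝 x) := by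
  have h1 : (𝓝[≥] (0 : ℝ)) = 𝓝[>] 0 ⊔ pure 0 := by
    rw [← Ioi_insert, nhdsWithin_insert, sup_comm]
  rw [h1, tendsto_sup]
  refine ⟨T_tendsto x, ?_⟩
  have h2 : T 0 x = x := by
    rw [T_zero]
    rfl
  rw [tendsto_pure_left]
  intro s hs
  rw [h2]
  exact mem_of_mem_nhds hs

theorem norm_T_sub_le {s t : ℝ} (hs : 0 ≤ s) (hst : s ≤ t) (x : L) :
    ‖T t x - T s x‖ ≤ ‖T (t - s) x - x‖ := by
  have h1 : T t x = T s (T (t - s) x) := by
    have h2 := T_add hs (sub_nonneg.2 hst)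
    rw [add_sub_cancel] at h2
    rw [h2]
    rfl
  rw [h1, ← map_sub]
  exact norm_T_le hs _

theorem T_cont (x : L) : ContinuousOn (fun t : ℝ => T t x) (Ici 0) := by
  intro s hs
  rw [ContinuousWithinAt, tendsto_iff_norm_sub_tendsto_zero]
  have h1 : Tendsto (fun t : ℝ => |t - s|) (𝓝[Ici 0] s) (𝓝[≥] 0) := by
    rw [tendsto_nhdsWithin_iff]
    refine ⟨?_, Eventually.of_forall fun t => mem_Ici.2 (abs_nonneg (t - s))⟩
    have h2 : Continuous fun t : ℝ => |t - s| := by fun_prop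
    have h3 := h2.tendsto s
    simp only [sub_self, abs_zero] at h3
    exact h3.mono_left nhdsWithin_le_nhds
  have h4 := (tendsto_iff_norm_sub_tendsto_zero.1 (T_tendsto' x)).comp h1
  refine squeeze_zero' (Eventually.of_forall fun _ => norm_nonneg _) ?_ h4
  filter_upwards [self_mem_nhdsWithin] with t ht
  have ht' : (0 : ℝ) ≤ t := ht
  have hs' : (0 : ℝ) ≤ s := hs
  simp only [Function.comp_apply]
  rcases le_total s t with h | h
  · rw [abs_of_nonneg (sub_nonneg.2 h)]
    exact norm_T_sub_le hs' h x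
  · rw [abs_of_nonpos (sub_nonpos.2 h), neg_sub, norm_sub_rev]
    exact norm_T_sub_le ht' h x

theorem T_norm_le {t : ℝ} (ht : 0 ≤ t) : ‖T t‖ ≤ 1 :=
  ContinuousLinearMap.opNorm_le_bound _ zero_le_one fun x => by
    rw [one_mul]
    exact norm_T_le ht x

end Pool.Agent.Helper80K9.BS
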